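import Pool.Agent.H58T.Tower

/-!
# Towers of height one over the complexes of labelled oriented trees

Definitions (`Pool.Agent.H58T.Defs`, `.Pi`, `.Free`, `.Red`, `.Tower`, and
`Pool.Agent.TH625.LOG.Core`, `.Tree`, `.Main` of the starting library):

* `LOG V E`: a labelled oriented graph with vertices `V` and edges `E`, the edge `e` runs from `ini e` to
  `ter e` and has the label `lab e`, an arbitrary vertex; `L.rel e = x_ini x_lab x_ter⁻¹ x_lab⁻¹`; `L.G`
  is the group with generators `V` (`L.gen v`) and relators `L.rel e`, the fundamental group of the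
  2-complex `K(L)` with one 0-cell, 1-cells `V` and 2-cells `E`; `L.Conn`: the graph is connected (it is
  a tree if it has moreover one vertex more than edges);
* `Sub L`: the finite subcomplexes `Y` of the infinite cyclic covering of `K(L)` (0-cells `i : ℤ`, 1-cells
  `(v, i)` from `i` to `i + 1`, 2-cells `(e, i)` with boundary path
  `(ini e, i) (lab e, i + 1) (ter e, i + 1)⁻¹ (lab e, i)⁻¹`): a finite set `Y.one` of 1-cells, a finite
  set `Y.two` of 2-cells, whose sides belong to `Y.one`;
* `Y.Tree τ`: `τ` selects one of the parallel 1-cells of `Y` from `i` to `i + 1` if there is one (the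
  selected 1-cells form a maximal forest); `Y.Pi τ`: the fundamental group of `Y`, generated by the
  1-cells, with the selected 1-cells and the boundaries of the 2-cells as relators (the free product of
  the groups of the components if `Y` is not connected); `Y.Conn`: `Y` is connected;
* `Y.cap`: the intersection of `Y` and its translate by the generator of the group of covering
  transformations;
* `Y.Induced τ ι`: `ι` is induced by the map `Y → K(L)` (with respect to some base path);
* `Reduced L`: no label of an edge is an end of the edge, and different edges with the same label have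
  different initial and different terminal vertices;
* `Forest L`: the graph has no cycles (its first homology group is trivial, that is, the differences
  `ini e - ter e` are linearly independent); `V` and `E` may be infinite;
* `L.ContractibleWith v`: `K(L) ∪ f` is contractible, where the 2-cell `f` is attached along the
  1-cell `v`.
-/

set_option autoImplicit false

namespace Pool.Agent.Results.MP_cf50d6_gt.HeightOneTowers

open Pool.Agent.TH625.LOG Pool.Agent.H58T

/-- Let `L` be a labelled oriented forest, for example a finite labelled oriented tree, so that `K(L)` is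
a subcomplex of a contractible 2-complex with one more 2-cell (last part), and let `Y` be a finite
subcomplex of the infinite cyclic covering of `K(L)`.

1. If `π₁(Y)` has no homomorphism onto `ℤ` then `Y` is simply connected; if moreover `L` is reduced then
   `Y` has neither 2-cells nor parallel 1-cells.
2. If `Y` is connected and the fundamental group of `Y ∩ tY` has no homomorphism onto `ℤ` then `π₁(Y)`
   is free.
3. If `Y` is connected and parallel 1-cells of `Y ∩ tY` have the same class in `π₁(K(L))`, that is, if
   the image of the fundamental group of `Y ∩ tY` in `π₁(K(L))` is trivial, then every group `P`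
   without a homomorphism onto `ℤ` and every homomorphism `P → π₁(Y)` have a trivial image in
   `π₁(K(L))`. -/
theorem result :
    (∀ (V E : Type) [DecidableEq V] [DecidableEq E] (L : LOG V E), Forest L →
      (∀ (Y : Sub L) (τ : ℤ → V), Y.Tree τ →
        (¬ ∃ φ : Y.Pi τ →* Multiplicative ℤ, Function.Surjective φ) →
          Subsingleton (Y.Pi τ) ∧
          (Reduced L → (∀ u v i, (u, i) ∈ Y.one → (v, i) ∈ Y.one → u = v) ∧ Y.two = ∅)) ∧
      (∀ (Y : Sub L) (τ σ : ℤ → V), Y.Tree τ → Y.Conn → Y.cap.Tree σ →
        (¬ ∃ φ : Y.cap.Pi σ →* Multiplicative ℤ, Function.Surjective φ) → IsFreeGroup (Y.Pi τ)) ∧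
      (∀ (Y : Sub L) (τ : ℤ → V), Y.Tree τ → Y.Conn →
        (∀ u v i, (u, i) ∈ Y.cap.one → (v, i) ∈ Y.cap.one → L.gen u = L.gen v) →
          (∃ ι : Y.Pi τ →* L.G, Y.Induced τ ι) ∧
          ∀ ι : Y.Pi τ →* L.G, Y.Induced τ ι → ∀ (P : Type) [Group P],
            (¬ ∃ φ : P →* Multiplicative ℤ, Function.Surjective φ) →
              ∀ ψ : P →* Y.Pi τ, ι.comp ψ = 1)) ∧
    ∀ (V E : Type) [Fintype V] [Fintype E] [DecidableEq V] (L : LOG V E), L.Conn →
      Fintype.card V = Fintype.card E + 1 → Forest L ∧ ∀ v : V, L.ContractibleWith v := by
  refine ⟨?_, fun V E _ _ _ L hL hcard => ⟨forest_of_tree L hL hcard,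
    fun v => contractibleWith L hL hcard v⟩⟩
  intro V E _ _ L hF
  have hI := hF.ind
  refine ⟨fun Y τ hτ h => ⟨main1 hI Y τ hτ h, fun hR => main3 hI hR Y τ hτ h⟩,
    fun Y τ σ hτ hY hσ h => main2 hI Y τ hτ hY σ hσ h, fun Y τ hτ hY hl =>
      ⟨Y.exists_induced τ, fun ι hι P _ hP ψ => tower hτ hY ?_ ι hι P hP ψ⟩⟩
  intro u v i h1 h2 h3 h4
  exact hl u v (i + 1) ((Y.mem_cap_one u _).2 ⟨h2, by rw [add_sub_cancel_right]; exact h1⟩)
    ((Y.mem_cap_one v _).2 ⟨h4, by rw [add_sub_cancel_right]; exact h3⟩)

end Pool.Agent.Results.MP_cf50d6_gt.HeightOneTowers
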