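import Pool.Agent.H18EX.Main
import Pool.Agent.H18EX.CONTR
import Pool.Agent.H18EX.QUO
import Pool.Agent.H18EX.COVG
import Pool.Agent.H18EX.FPF
import Pool.Agent.H18EX.RELIM
import Pool.Agent.H18EX.LET
import Pool.Agent.H18EX.HALL2
import Pool.Agent.H18EX.DEG
import Pool.Agent.H18EX.ISO2

/-!
# Q1 for almost all extensions of contractible complexes

Let `A` be a contractible 2-complex and `L` a contractible complex that contains `A`. Up to homotopies
of the attaching maps of the cells outside `A` (which do not change the homotopy type of `L`) the complex
is determined by `A` and the quotient `L / A`. We prove that Q1, for all subcomplexes, holds for almost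
all `L` with given `A` and `L / A` if (and only if) it holds for `A` and for `L / A`.

Definitions (`Pool.Agent.R655.LI.Defs`, `Pool.Agent.H18LI.Stm`, `Pool.Agent.H18EX.Stm`):

* `Cx`: a 2-complex with one vertex, 1-cells `V`, 2-cells `R`, attaching words `r : R → FreeGroup V`;
  `K.Pi`: its fundamental group; `L.Contractible`: `π₁(L) = 1` and the cellular boundary operator
  `ℤ[R] → ℤ[V]` is injective; `Sub K L`: `K` is a subcomplex of `L` (`s.c`: its 2-cells);
  `LocInd G`: every nontrivial finitely generated subgroup of `G` maps onto `ℤ`; `AllLI L`: Q1 for `L`,
  the fundamental groups of all the subcomplexes of `L` are locally indicable;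
* `X`, `R`: finite sets of new 1-cells and 2-cells; `w : R → List ((A.V ⊕ X) × Bool)`: words in the 1-cells
  of `A` and the new 1-cells, written out letter by letter (a letter is a 1-cell with a sign);
  `Pos w`: the occurrences of letters in the words, `gen w p`, `sgn w p`: the 1-cell and the sign of the
  occurrence `p`;
* `ext A w u` for `u : Pos w → FreeGroup A.V`: the complex `L^u`, `A` with the new 1-cells and the new
  2-cells attached along the words `w r`, every letter at the occurrence `p` being conjugated by the word
  `u p` in the 1-cells of `A` (as `A` is simply connected, this changes the attaching maps by homotopies);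
  `quot w`: the quotient `L^u / A`, 1-cells `X`, 2-cells `R`, attaching words `w r` without the letters
  of `A`;
* `deg φ`: the weighted exponent sum; `IsDeg A w f φ`: the weights `φ` are such that the attaching word of
  the 2-cell `f` of `A` has degree `1` and those of all other 2-cells (old and new) have degree `0`;
* `hgt w φ u p`: the height of the occurrence `p`, that is the degree of the part of the word before `p`
  (including `p` if its sign is negative) plus the degree of `u p`;
* `IsSel w q`: `q` selects one occurrence of a new letter from every word `w r`, and the selected letters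
  are different; `Tie w φ u`: there are two different selections of minimal total height;
* `pw h`: the words `u p = ∏ v ^ h (p, v)` (product over the 1-cells `v` of `A`).
-/

set_option autoImplicit false

namespace Pool.Agent.Results.MP_cf50d6_gt.RandomExtensions

open Pool.Agent.R655.LI Pool.Agent.H18LI Pool.Agent.H18EX

/-- Let `A` be a contractible complex, `X` and `R` finite, and let `quot w` be contractible.

1. For all `u`, `ext A w u` is contractible, and if Q1 holds for (all the subcomplexes of) `ext A w u` it
   holds for `A` and for `quot w`. Conversely, if `u` has no tie with respect to any 2-cell `f` of `A` and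
   Q1 holds for `A` and for `quot w`, it holds for `ext A w u`.
2. Let `f` be a 2-cell of `A` such that `u` has no tie with respect to `f`. If all the subcomplexes of `A`
   without `f` have locally indicable fundamental groups, then so do all the subcomplexes of `ext A w u`
   without `f`.
3. For every 2-cell `f` of `A` the degree with respect to `f` exists and is unique.
4. If `A` is finite, the proportion of the exponents `h` with values in `{0, ..., N - 1}` such that
   `u = pw h` has a tie with respect to some 2-cell of `A` is at most `|A.R| l / N`, where `l` is the total
   length of the words. -/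
theorem result :
    ∀ (A : Cx) (X R : Type) [Finite X] [Fintype R] (w : R → List ((A.V ⊕ X) × Bool)),
      A.Contractible → (quot w).Contractible →
      (∀ u : Pos w → FreeGroup A.V, (ext A w u).Contractible ∧
        (AllLI (ext A w u) → AllLI A ∧ AllLI (quot w)) ∧
        ((∀ f φ, IsDeg A w f φ → ¬ Tie w φ u) → AllLI A → AllLI (quot w) → AllLI (ext A w u))) ∧
      (∀ (u : Pos w → FreeGroup A.V) (f : A.R) (φ : A.V ⊕ X → ℤ), IsDeg A w f φ → ¬ Tie w φ u →
        (∀ (K : Cx) (s : Sub K A), f ∉ Set.range s.c → LocInd K.Pi) →
        ∀ (K : Cx) (s : Sub K (ext A w u)), (Sum.inl f : A.R ⊕ R) ∉ Set.range s.c →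
          LocInd K.Pi) ∧
      (∀ f : A.R, ∃! φ, IsDeg A w f φ) ∧
      ∀ [Fintype A.V] [Fintype A.R] (N : ℕ),
        {h : Pos w × A.V → Fin N | ∃ f φ, IsDeg A w f φ ∧ Tie w φ (pw h)}.ncard * N ≤
          Fintype.card A.R * (∑ r, (w r).length) * N ^ ((∑ r, (w r).length) * Fintype.card A.V) :=
  main QUO.t_QUO DEG.t_DEG CONTR.t_CONTR COVG.t_BLI COVG.t_COVG FPF.t_FPF RELIM.t_RELIM LET.t_LET
    HALL2.t_HALL2 ISO2.t_ISO2

end Pool.Agent.Results.MP_cf50d6_gt.RandomExtensions
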