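import Pool.Agent.H18LI.Final
import Pool.Agent.H18LI.ISO
import Pool.Agent.H18LI.WALK
import Pool.Agent.H18LI.HALL
import Pool.Agent.H18LI.CONTR
import Pool.Agent.H18LI.EXH

/-!
# Random homotopies of the attaching maps across the removed 2-cell

Definitions (`Pool.Agent.R655.LI.Defs`, `Pool.Agent.H18LI.Stm`, `Pool.Agent.H18LI.Final`):

* `Cx`: a 2-complex with one vertex, 1-cells `V`, 2-cells `R`, attaching words `r : R → FreeGroup V`;
  `L.Pi`: its fundamental group; `L.Contractible`: `π₁(L) = 1` and the cellular boundary operator
  `ℤ[R] → ℤ[V]` is injective; `L.IsFin`: finitely many cells; `Sub K L`: `K` is a subcomplex of `L`;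
  `L.del e`: `L` without the open 2-cell `e`; `OneCell L e`: `L` is contractible and `e` is attached
  along a 1-cell; `LocInd G`: every nontrivial finitely generated subgroup of `G` maps onto `ℤ`;
  `Question P`: Q1 for the one-vertex contractible complexes `L` with `P L` and all their subcomplexes;
* `w : R → List (V × Bool)`: attaching words, written out letter by letter (a letter is a 1-cell with a
  sign); `base w`: the complex with these attaching words; `Pos w`: the occurrences of letters in the
  words, `gen w p`: the 1-cell of the occurrence `p`;
* `lift w h` for heights `h : Pos w → ℤ`: the complex with one more 1-cell `t = none`, one more 2-cell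
  `e = none` attached along `t`, and in the other attaching words every letter `x^±` at the occurrence
  `p` replaced by `t^(h p) x^± t^(-h p)` (the attaching maps are changed by homotopies across `e`);
* `IsSel w q`: the selection `q` selects one occurrence from every word and the selected 1-cells are
  different; `Tie w h`: two different selections have the same minimal total height `∑ h (q r)`.
-/

set_option autoImplicit false

namespace Pool.Agent.Results.MP_cf50d6_gt.RandomHomotopies

open Pool.Agent.R655.LI Pool.Agent.H18LI

/-- Let `L = base w` be a finite contractible 2-complex. Then `lift w h` is contractible for all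
heights `h`; if `h` has no tie, all the subcomplexes of `lift w h` without the 2-cell `e` have locally
indicable fundamental groups; and the proportion of the heights `h : Pos w → {0, ..., N - 1}` with a tie
is at most `l / N`, `l` the total length of the words. Q1 for finite complexes is equivalent to its
restriction to the complexes `lift w h - e` such that `h` has a tie. -/
theorem result :
    (∀ (V R : Type) [Finite V] [Fintype R] (w : R → List (V × Bool)), (base w).Contractible →
      (∀ h : Pos w → ℤ, OneCell (lift w h) none) ∧
      (∀ h : Pos w → ℤ, ¬ Tie w h →
        ∀ (K : Cx) (_ : Sub K ((lift w h).del none)), LocInd K.Pi) ∧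
      ∀ N : ℕ, {h : Pos w → Fin N | Tie w fun p => ((h p : ℕ) : ℤ)}.ncard * N ≤
        (∑ r, (w r).length) * N ^ (∑ r, (w r).length)) ∧
    (Question Cx.IsFin ↔ ∀ (V R : Type) [Finite V] [Fintype R] (w : R → List (V × Bool)),
      (base w).Contractible → ∀ h : Pos w → ℤ, Tie w h → LocInd ((lift w h).del none).Pi) :=
  ⟨fun V R _ _ w hw => ⟨fun h => t_CONTR V R w h hw,
    fun h ht K s => good_of_not_tie t_WALK t_HALL w hw h ht K s, fun N => count_tie t_ISO w N⟩,
    equivalence_tie t_WALK t_HALL t_CONTR t_EXH⟩

end Pool.Agent.Results.MP_cf50d6_gt.RandomHomotopies
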