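import Pool.Agent.H18RD.Main
import Pool.Agent.H18RD.COV2
import Pool.Agent.H18RD.GAUGE
import Pool.Agent.H18RD.CYC
import Pool.Agent.H18RD.WALK2
import Pool.Agent.H18RD.TREE
import Pool.Agent.H18RD.SEL2
import Pool.Agent.H18RD.CONTR2

/-!
# Almost all ribbon (Wirtinger) complexes

Definitions (`Pool.Agent.R655.LI.Defs`, `Pool.Agent.H18RD.Stm`):

* `Cx`: a 2-complex with one vertex, 1-cells `V`, 2-cells `R`, attaching words `r : R → FreeGroup V`;
  `L.Pi`: its fundamental group; `L.Contractible`: `π₁(L) = 1` and the cellular boundary operator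
  `ℤ[R] → ℤ[V]` is injective; `Sub K L`: `K` is a subcomplex of `L`; `LocInd G`: every nontrivial
  finitely generated subgroup of `G` maps onto `ℤ`;
* `v r 0, ..., v r (m r + 1)`: a sequence of labels for every `r : R`; `IsTree v`: the graph with the
  vertices `V` and the edges `{v r 0, v r (m r + 1)}`, `r : R`, is connected and has one vertex more than
  edges; `Cor m`: the corners `⟨r, s⟩`, `s = 0, ..., m r`; the corner `⟨r, s⟩` lies between the labels
  `lab1 = v r s` and `lab2 = v r (s + 1)`;
* `wirt v h r = v₀ w v_(m+1)⁻¹ w⁻¹`, `w = v₁ ^ (h₁ - h₀) v₂ ^ (h₂ - h₁) ... v_m ^ (h_m - h_(m-1))`: the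
  Wirtinger relator (`h_s = h ⟨r, s⟩` the heights); `ribbon v h`: the complex with one vertex, 1-cells
  `V` and 2-cells attached along the Wirtinger relators; `cap v h v₀`: one more 2-cell attached along
  the 1-cell `v₀`;
* `IsSel v q`: the selection `q` of one corner for every `r` is such that the vectors
  `e_(lab2) - e_(lab1)` are linearly independent (the edges `{lab1, lab2}` form a tree); `Tie v h`: two
  different selections have the same minimal total height `∑ h (q r)`.
-/

set_option autoImplicit false

namespace Pool.Agent.Results.MP_cf50d6_gt.RandomRibbons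

open Pool.Agent.R655.LI Pool.Agent.H18RD

/-- Let sequences of labels for the edges of a finite tree be given. For all heights `h` the complex
`ribbon v h` becomes contractible if a 2-cell is attached along any 1-cell; if `h` has no tie, all the
subcomplexes of `ribbon v h` have locally indicable fundamental groups; and the proportion of the
heights with values in `{0, ..., N - 1}` with a tie is at most `c / N`, `c` the number of corners. -/
theorem result (V R : Type) [Finite V] [Fintype R] (m : R → ℕ) (v : ∀ r, Fin (m r + 2) → V)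
    (hv : IsTree v) :
    (∀ (h : Cor m → ℤ) (v₀ : V), (cap v h v₀).Contractible) ∧
    (∀ h : Cor m → ℤ, ¬ Tie v h → ∀ (K : Cx) (_ : Sub K (ribbon v h)), LocInd K.Pi) ∧
    ∀ N : ℕ, {h : Cor m → Fin N | Tie v fun p => ((h p : ℕ) : ℤ)}.ncard * N ≤
      (∑ r, (m r + 1)) * N ^ (∑ r, (m r + 1)) :=
  Main.main COV2.t_COV2 GAUGE.t_GAUGE CYC.t_CYC WALK2.t_WALK2 TREE.t_TREE SEL2.t_SEL2
    CONTR2.t_CONTR2 V R m v hv

end Pool.Agent.Results.MP_cf50d6_gt.RandomRibbons
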